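import Pool.Agent.helper96.S5.SpecR

/-! Row s5:RS3 (MP_0b485e_lc): the relation `RS` is `Σ_3`. -/

set_option autoImplicit false

namespace S5

open PF

/-- the type of the arguments -/
abbrev RS3_X : Type := (ℕ × List ℕ × ℕ) × ℕ × ℕ

/-- the four parts of the matrix -/
def RS3_P1 (B : BD) (x : RS3_X) : Prop :=
  ∀ i < x.1.2.1.length, ent x.1.2.1 i ≠ 0 → ∃ s, x.2.2 < B.cn i x.1.1 s

def RS3_P2 (B : BD) (x : RS3_X) : Prop :=
  ∀ i < x.1.2.1.length, ent x.1.2.1 i = 0 → B.cn i x.1.1 x.2.2 ≤ x.2.1.unpair.1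

def RS3_P3 (B : BD) (x : RS3_X) : Prop :=
  ∃ u, x.2.2 ≤ u ∧ B.fit x.1.1 u x.1.2.1 x.1.2.2

def RS3_P4 (B : BD) (x : RS3_X) : Prop :=
  x.2.1.unpair.2 ≤ x.2.2 → ¬ B.big x.1.1 x.2.2 x.1.2.1 x.1.2.2

theorem RS3_ck : Computable fun x : RS3_X => x.1.1 := Computable.fst.comp Computable.fst

theorem RS3_cg : Computable fun x : RS3_X => x.1.2.1 :=
  Computable.fst.comp (Computable.snd.comp Computable.fst)

theorem RS3_cl : Computable fun x : RS3_X => x.1.2.2 :=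
  Computable.snd.comp (Computable.snd.comp Computable.fst)

theorem RS3_cw : Computable fun x : RS3_X => x.2.1 := Computable.fst.comp Computable.snd

theorem RS3_cy : Computable fun x : RS3_X => x.2.2 := Computable.snd.comp Computable.snd

theorem RS3_cw1 : Computable fun x : RS3_X => x.2.1.unpair.1 :=
  Computable.fst.comp (Primrec.unpair.to_comp.comp RS3_cw)

theorem RS3_cw2 : Computable fun x : RS3_X => x.2.1.unpair.2 :=
  Computable.snd.comp (Primrec.unpair.to_comp.comp RS3_cw)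

theorem RS3_clen : Computable fun x : RS3_X => x.1.2.1.length :=
  Primrec.list_length.to_comp.comp RS3_cg

theorem RS3_ent : ComputablePred fun x : RS3_X × ℕ => ent x.1.1.2.1 x.2 = 0 := by
  have h1 : Computable fun x : RS3_X × ℕ => (x.1.1.2.1, x.2) :=
    (RS3_cg.comp Computable.fst).pair Computable.snd
  have h3 := ent_computable.comp h1
  have h2 : Computable fun x : RS3_X × ℕ => ent x.1.1.2.1 x.2 := h3
  have h4 := cp_eq h2 (Computable.const 0)
  exact h4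

/-- the counter as a function of the arguments, an index and a stage -/
theorem RS3_cn (B : BD) (hB : B.Cp) :
    Computable fun x : (RS3_X × ℕ) × ℕ => B.cn x.1.2 x.1.1.1.1 x.2 := by
  have h1 : Computable fun x : (RS3_X × ℕ) × ℕ => x.1.1.1.1 :=
    RS3_ck.comp (Computable.fst.comp Computable.fst)
  have h2 : Computable fun x : (RS3_X × ℕ) × ℕ => (x.1.2, x.1.1.1.1, x.2) :=
    (Computable.snd.comp Computable.fst).pair (h1.pair Computable.snd)
  have h3 := hB.cn.comp h2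
  exact h3

theorem RS3_re1 (B : BD) (hB : B.Cp) : REPred (RS3_P1 B) := by
  refine R2_ball RS3_X (fun x i => ent x.1.2.1 i ≠ 0 → ∃ s, x.2.2 < B.cn i x.1.1 s)
    (fun x => x.1.2.1.length) ?_ RS3_clen
  have h0 : Computable fun x : (RS3_X × ℕ) × ℕ => x.1.1.2.2 :=
    RS3_cy.comp (Computable.fst.comp Computable.fst)
  have h2 : ComputablePred fun x : (RS3_X × ℕ) × ℕ => x.1.1.2.2 < B.cn x.1.2 x.1.1.1.1 x.2 :=
    cp_lt h0 (RS3_cn B hB)
  have h1 : REPred fun x : RS3_X × ℕ => ∃ s : ℕ, x.1.2.2 < B.cn x.2 x.1.1.1 s :=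
    re_ex (p := fun (x : RS3_X × ℕ) (s : ℕ) => x.1.2.2 < B.cn x.2 x.1.1.1 s) h2.to_re
  refine (re_or RS3_ent.to_re h1).of_eq fun x => ?_
  show (ent x.1.1.2.1 x.2 = 0 ∨ ∃ s : ℕ, x.1.2.2 < B.cn x.2 x.1.1.1 s) ↔
    (ent x.1.1.2.1 x.2 ≠ 0 → ∃ s, x.1.2.2 < B.cn x.2 x.1.1.1 s)
  exact or_iff_not_imp_left

theorem RS3_re2 (B : BD) (hB : B.Cp) : REPred (RS3_P2 B) := by
  have h0 : Computable fun x : RS3_X × ℕ => ((x.1, x.2), x.1.2.2) :=
    (Computable.fst.pair Computable.snd).pair (RS3_cy.comp Computable.fst)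
  have h5 := (RS3_cn B hB).comp h0
  have h1 : Computable fun x : RS3_X × ℕ => B.cn x.2 x.1.1.1 x.1.2.2 := h5
  have h2 : Computable fun x : RS3_X × ℕ => x.1.2.1.unpair.1 := RS3_cw1.comp Computable.fst
  have h3 : ComputablePred fun x : RS3_X × ℕ => B.cn x.2 x.1.1.1 x.1.2.2 ≤ x.1.2.1.unpair.1 :=
    cp_le h1 h2
  have h4 : ComputablePred fun x : RS3_X × ℕ =>
      (ent x.1.1.2.1 x.2 = 0 → B.cn x.2 x.1.1.1 x.1.2.2 ≤ x.1.2.1.unpair.1) :=
    (cp_or (cp_not RS3_ent) h3).of_eq fun x => imp_iff_not_or.symm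
  exact (cp_ball (p := fun (x : RS3_X) i => ent x.1.2.1 i = 0 →
    B.cn i x.1.1 x.2.2 ≤ x.2.1.unpair.1) h4 RS3_clen).to_re

theorem RS3_re3 (hCPR : CPR_stmt) (B : BD) (hB : B.Cp) (hl : 0 < B.lam) : REPred (RS3_P3 B) := by
  obtain ⟨-, hfit, -⟩ := hCPR B hB hl
  have h0 : Computable fun x : RS3_X × ℕ => ((x.1.1.1, x.2), (x.1.1.2.1, x.1.1.2.2)) :=
    ((RS3_ck.comp Computable.fst).pair Computable.snd).pair
        ((RS3_cg.comp Computable.fst).pair (RS3_cl.comp Computable.fst))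
  have h1 : ComputablePred fun x : RS3_X × ℕ => B.fit x.1.1.1 x.2 x.1.1.2.1 x.1.1.2.2 :=
    cp_comp (f := fun x : RS3_X × ℕ => ((x.1.1.1, x.2), (x.1.1.2.1, x.1.1.2.2))) h0 hfit
  have h2 : ComputablePred fun x : RS3_X × ℕ => x.1.2.2 ≤ x.2 :=
    cp_le (RS3_cy.comp Computable.fst) Computable.snd
  exact re_ex (p := fun (x : RS3_X) (u : ℕ) => x.2.2 ≤ u ∧ B.fit x.1.1 u x.1.2.1 x.1.2.2)
    (cp_and h2 h1).to_re

theorem RS3_re4 (hCPR : CPR_stmt) (B : BD) (hB : B.Cp) (hl : 0 < B.lam) : REPred (RS3_P4 B) := by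
  obtain ⟨-, -, hbig⟩ := hCPR B hB hl
  have h1 : ComputablePred fun x : RS3_X => x.2.1.unpair.2 ≤ x.2.2 := cp_le RS3_cw2 RS3_cy
  have h0 : Computable fun x : RS3_X => ((x.1.1, x.2.2), (x.1.2.1, x.1.2.2)) :=
    (RS3_ck.pair RS3_cy).pair (RS3_cg.pair RS3_cl)
  have h2 : ComputablePred fun x : RS3_X => B.big x.1.1 x.2.2 x.1.2.1 x.1.2.2 :=
    cp_comp (f := fun x : RS3_X => ((x.1.1, x.2.2), (x.1.2.1, x.1.2.2))) h0 hbig
  exact ((cp_or (cp_not h1) (cp_not h2)).of_eq fun x => imp_iff_not_or.symm).to_re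

theorem RS3_bd (B : BD) (k : ℕ) (g : List ℕ) (n : ℕ)
    (h : ∀ i < n, ent g i = 0 → ¬ B.C i k) :
    ∃ b, ∀ i < n, ent g i = 0 → ∀ y, B.cn i k y ≤ b := by
  induction n with
  | zero => exact ⟨0, fun i hi => absurd hi (Nat.not_lt_zero i)⟩
  | succ n ih =>
    obtain ⟨b, hb⟩ := ih (fun i hi => h i (by omega))
    by_cases h0 : ent g n = 0
    · have h1 := h n (by omega) h0
      unfold BD.C at h1
      push Not at h1
      obtain ⟨z, hz⟩ := h1
      refine ⟨max b z, fun i hi hi0 y => ?_⟩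
      rcases Nat.lt_succ_iff_lt_or_eq.1 hi with h2 | h2
      · exact (hb i h2 hi0 y).trans (le_max_left _ _)
      · rw [h2]
        exact (hz y).trans (le_max_right _ _)
    · refine ⟨b, fun i hi hi0 y => ?_⟩
      rcases Nat.lt_succ_iff_lt_or_eq.1 hi with h2 | h2
      · exact hb i h2 hi0 y
      · rw [h2] at hi0
        exact absurd hi0 h0

theorem RS3_row (hCPR : CPR_stmt) : RS3_stmt := by
  intro B hB hl
  refine ⟨fun x => RS3_P1 B x ∧ RS3_P2 B x ∧ RS3_P3 B x ∧ RS3_P4 B x,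
    re_and (RS3_re1 B hB) (re_and (RS3_re2 B hB)
      (re_and (RS3_re3 hCPR B hB hl) (RS3_re4 hCPR B hB hl))), fun k g l => ?_⟩
  constructor
  · rintro ⟨h1, h2, u0, h3⟩
    obtain ⟨b, hb⟩ := RS3_bd B k g g.length
      (fun i hi h0 hC => (h1 i hi).2 hC h0)
    refine ⟨Nat.pair b u0, fun y => ⟨?_, ?_, ?_, ?_⟩⟩
    · intro i hi hne
      exact (h1 i hi).1 hne y
    · intro i hi h0
      show B.cn i k y ≤ (Nat.pair b u0).unpair.1
      rw [Nat.unpair_pair]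
      exact hb i hi h0 y
    · exact h2 y
    · intro hy
      have hy' : (Nat.pair b u0).unpair.2 ≤ y := hy
      rw [Nat.unpair_pair] at hy'
      exact h3 y hy'
  · rintro ⟨w, hw⟩
    refine ⟨fun i hi => ⟨fun hne z => (hw z).1 i hi hne, fun hC h0 => ?_⟩, fun u0 => (hw u0).2.2.1,
      w.unpair.2, fun u hu => (hw u).2.2.2 hu⟩
    obtain ⟨s, hs⟩ := hC w.unpair.1
    exact absurd ((hw s).2.1 i hi h0) (not_le.2 hs)

end S5
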